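import Mathlib

/-!
# The maximum number of intersections of cross-Sperner families for odd n

Two families `A, B` of subsets of `[n]` are cross-Sperner if no member of one of them is contained in a
member of the other.  Let `m(n)` be the maximum number of sets `S ∩ T`, `S ∈ A`, `T ∈ B`, for
cross-Sperner families `A`, `B`.  We prove that for every odd `n = 2d + 1`

  `m(n) = 2 ^ n - 2 ^ (d + 1) - 2 ^ d + 1`.

Proof of the upper bound.  Pass to complements, so that intersections become unions, and let `F` be the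
family of all sets which are not unions.  A union `P ∪ Q` is also the disjoint union of `P` and `Q \ P`, and
`Q \ P` is in `F` but not one of the sets `P`.  So if `𝒜` consists of the empty set and of all sets `P`, and
`ℬ` consists of all other members of `F`, then `|𝒜| + |ℬ| = |F| + 1` and every subset of `[n]` is a
disjoint union of a member of `𝒜` and a member of `ℬ`.  We show that this implies
`|𝒜| + |ℬ| ≥ 3 N`, where `N = 2 ^ d` (this is a bipartite form, for `k = 2`, of a conjecture of Frein,
Lévêque and Sebő on `k`-generators, which was proved by Ellis and Sudakov for large `n`).  Let `a = |𝒜|`,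
`b = |ℬ|` and assume `a + b < 3 N`.  There are at least `2 ^ n = 2 N²` disjoint pairs, so `a b ≥ 2 N²`,
which gives `a, b > N`.  For a point `z` let `a_z`, `b_z` be the numbers of members that contain `z`.  The
`N²` sets that contain `z` show that `N² ≤ a_z (b - b_z) + (a - a_z) b_z`, and this implies `a_z > a - N` or
`b_z > b - N`.  Let `Y` be the set of the points with `b_z > b - N`, and let `X` be the set of the other
points.  Then `X` or `Y` has at most `d` points, and we may assume that this is `X`.  At most `N` members of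
`𝒜` are subsets of `X`.  Every other member of `𝒜` contains a point of `Y` and so it meets more than `b - N`
members of `ℬ`.  So there are more than `(a - N) (b - N)` pairs that are not disjoint, and
`a b - 2 N² > (a - N) (b - N)`, that is, `a + b > 3 N`, a contradiction.
-/

namespace Pool.Agent.Results.MP_841146_co.OddGroundSets

/-- No member of `A` is contained in a member of `B`, and no member of `B` is contained in a member of
`A`. -/
def CrossSperner {n : ℕ} (A B : Finset (Finset (Fin n))) : Prop :=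
  ∀ S ∈ A, ∀ T ∈ B, ¬ S ⊆ T ∧ ¬ T ⊆ S

/-- The family of all intersections `S ∩ T`, `S ∈ A`, `T ∈ B`. -/
def intersections {n : ℕ} (A B : Finset (Finset (Fin n))) : Finset (Finset (Fin n)) :=
  (A ×ˢ B).image fun p => p.1 ∩ p.2

/-- `m(n)`: the maximum of the number of intersections over all cross-Sperner families. -/
noncomputable def m (n : ℕ) : ℕ :=
  sSup {k : ℕ | ∃ A B : Finset (Finset (Fin n)), CrossSperner A B ∧ k = (intersections A B).card}

section disjoint_unions

variable {α : Type} [Fintype α] [DecidableEq α]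

/-- the pairs that are not disjoint -/
lemma meet_count (𝒜 ℬ : Finset (Finset α)) (X Y : Finset α) (d N : ℕ) (hN : N = 2 ^ d)
    (hX : X.card ≤ d) (hXY : ∀ z, z ∉ X → z ∈ Y) (hb : N ≤ ℬ.card)
    (hY : ∀ z ∈ Y, ℬ.card < (ℬ.filter fun Q => z ∈ Q).card + N) :
    ((𝒜.card : ℤ) - N) * (ℬ.card - N + 1) ≤
      (((𝒜 ×ˢ ℬ).filter fun p => ¬ Disjoint p.1 p.2).card : ℤ) := by
  classical
  -- the members of `𝒜` that are subsets of `X`
  have h0 : (𝒜.filter fun P => P ⊆ X).card ≤ N := by
    calc (𝒜.filter fun P => P ⊆ X).card ≤ X.powerset.card := by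
          apply Finset.card_le_card
          intro P hP
          rw [Finset.mem_powerset]
          exact (Finset.mem_filter.1 hP).2
      _ = 2 ^ X.card := Finset.card_powerset X
      _ ≤ 2 ^ d := Nat.pow_le_pow_right (by norm_num) hX
      _ = N := hN.symm
  have h1 : (𝒜.filter fun P => P ⊆ X).card + (𝒜.filter fun P => ¬ P ⊆ X).card = 𝒜.card :=
    Finset.card_filter_add_card_filter_not _
  have h2 : (𝒜.filter fun P => ¬ P ⊆ X).card * (ℬ.card - N + 1) ≤
      ((𝒜 ×ˢ ℬ).filter fun p => ¬ Disjoint p.1 p.2).card := by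
    have h3 : ∀ P ∈ 𝒜.filter (fun P => ¬ P ⊆ X),
        ℬ.card - N + 1 ≤ (ℬ.filter fun Q => ¬ Disjoint P Q).card := by
      intro P hP
      have h4 := (Finset.mem_filter.1 hP).2
      rw [Finset.not_subset] at h4
      obtain ⟨z, hz, hzX⟩ := h4
      have h5 := hY z (hXY z hzX)
      have h6 : (ℬ.filter fun Q => z ∈ Q).card ≤ (ℬ.filter fun Q => ¬ Disjoint P Q).card := by
        apply Finset.card_le_card
        intro Q hQ
        rw [Finset.mem_filter] at hQ ⊢
        refine ⟨hQ.1, fun hd => ?_⟩
        exact (Finset.disjoint_left.1 hd hz) hQ.2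
      omega
    calc (𝒜.filter fun P => ¬ P ⊆ X).card * (ℬ.card - N + 1)
        = ∑ _P ∈ 𝒜.filter (fun P => ¬ P ⊆ X), (ℬ.card - N + 1) := by
          rw [Finset.sum_const, smul_eq_mul]
      _ ≤ ∑ P ∈ 𝒜.filter (fun P => ¬ P ⊆ X), (ℬ.filter fun Q => ¬ Disjoint P Q).card :=
          Finset.sum_le_sum h3
      _ = ((𝒜.filter (fun P => ¬ P ⊆ X)).sigma
            (fun P => ℬ.filter fun Q => ¬ Disjoint P Q)).card := by
          rw [Finset.card_sigma]
      _ ≤ ((𝒜 ×ˢ ℬ).filter fun p => ¬ Disjoint p.1 p.2).card := by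
          apply Finset.card_le_card_of_injOn (fun p => (p.1, p.2))
          · rintro ⟨P, Q⟩ hp
            simp only [Finset.coe_sigma, Set.mem_sigma_iff, Finset.mem_coe, Finset.mem_filter] at hp
            simp only [Finset.coe_filter, Finset.mem_product]
            exact ⟨⟨hp.1.1, hp.2.1⟩, hp.2.2⟩
          · rintro ⟨P, Q⟩ _ ⟨P', Q'⟩ _ h
            simp only [Prod.mk.injEq] at h
            obtain ⟨rfl, rfl⟩ := h
            rfl
  have h7 : (𝒜.card : ℤ) - N ≤ ((𝒜.filter fun P => ¬ P ⊆ X).card : ℤ) := by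
    have : 𝒜.card ≤ N + (𝒜.filter fun P => ¬ P ⊆ X).card := by omega
    have h8 : (𝒜.card : ℤ) ≤ N + ((𝒜.filter fun P => ¬ P ⊆ X).card : ℤ) := by exact_mod_cast this
    linarith
  have h9 : (0 : ℤ) ≤ (ℬ.card : ℤ) - N + 1 := by
    have : (N : ℤ) ≤ ℬ.card := by exact_mod_cast hb
    linarith
  have h10 : (((𝒜.filter fun P => ¬ P ⊆ X).card * (ℬ.card - N + 1) : ℕ) : ℤ) ≤
      (((𝒜 ×ˢ ℬ).filter fun p => ¬ Disjoint p.1 p.2).card : ℤ) := by exact_mod_cast h2
  rw [Nat.cast_mul, Nat.cast_add, Nat.cast_sub hb, Nat.cast_one] at h10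
  exact (mul_le_mul_of_nonneg_right h7 h9).trans h10

/-- If every subset of a set of `2 d + 1` elements is a disjoint union of a member of `𝒜` and a member of
`ℬ`, then `|𝒜| + |ℬ| ≥ 3 · 2 ^ d`. -/
theorem three_le (d : ℕ) (hα : Fintype.card α = 2 * d + 1) (𝒜 ℬ : Finset (Finset α))
    (h : ∀ T : Finset α, ∃ P ∈ 𝒜, ∃ Q ∈ ℬ, Disjoint P Q ∧ P ∪ Q = T) :
    3 * 2 ^ d ≤ 𝒜.card + ℬ.card := by
  classical
  obtain ⟨N, hN⟩ : ∃ N : ℕ, N = 2 ^ d := ⟨_, rfl⟩
  have hN1 : 1 ≤ N := by
    rw [hN]
    exact Nat.one_le_two_pow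
  rw [← hN]
  by_contra hcon
  push Not at hcon
  have hNN : (2 : ℕ) ^ (2 * d) = N * N := by
    rw [hN, two_mul, pow_add]
  -- the number of disjoint pairs
  have hdis : 2 * (N * N) ≤ ((𝒜 ×ˢ ℬ).filter fun p => Disjoint p.1 p.2).card := by
    have h1 : (Finset.univ : Finset (Finset α)) ⊆
        (((𝒜 ×ˢ ℬ).filter fun p => Disjoint p.1 p.2)).image (fun p => p.1 ∪ p.2) := by
      intro T _
      obtain ⟨P, hP, Q, hQ, hd, hT⟩ := h T
      rw [Finset.mem_image]
      exact ⟨(P, Q), Finset.mem_filter.2 ⟨Finset.mem_product.2 ⟨hP, hQ⟩, hd⟩, hT⟩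
    have h2 := (Finset.card_le_card h1).trans Finset.card_image_le
    rw [Finset.card_univ, Fintype.card_finset, hα, pow_succ, hNN] at h2
    omega
  have hsplit : ((𝒜 ×ˢ ℬ).filter fun p => Disjoint p.1 p.2).card +
      ((𝒜 ×ˢ ℬ).filter fun p => ¬ Disjoint p.1 p.2).card = 𝒜.card * ℬ.card := by
    rw [Finset.card_filter_add_card_filter_not, Finset.card_product]
  have hab : 2 * (N * N) ≤ 𝒜.card * ℬ.card := by omega
  have ha : N < 𝒜.card := by
    by_contra hle
    push Not at hle
    nlinarith
  have hb : N < ℬ.card := by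
    by_contra hle
    push Not at hle
    nlinarith
  -- the sets that contain `z`
  have hz : ∀ z : α, 𝒜.card < (𝒜.filter fun P => z ∈ P).card + N ∨
      ℬ.card < (ℬ.filter fun Q => z ∈ Q).card + N := by
    intro z
    by_contra hno
    push Not at hno
    obtain ⟨h1, h2⟩ := hno
    have hA : (𝒜.filter fun P => z ∈ P).card + (𝒜.filter fun P => z ∉ P).card = 𝒜.card :=
      Finset.card_filter_add_card_filter_not _
    have hB : (ℬ.filter fun P => z ∈ P).card + (ℬ.filter fun P => z ∉ P).card = ℬ.card :=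
      Finset.card_filter_add_card_filter_not _
    have hcov : N * N ≤ (𝒜.filter fun P => z ∈ P).card * (ℬ.filter fun P => z ∉ P).card +
        (𝒜.filter fun P => z ∉ P).card * (ℬ.filter fun P => z ∈ P).card := by
      have h3 : (Finset.univ.filter fun T : Finset α => z ∈ T) ⊆
          ((𝒜.filter fun P => z ∈ P) ×ˢ (ℬ.filter fun P => z ∉ P) ∪
            (𝒜.filter fun P => z ∉ P) ×ˢ (ℬ.filter fun P => z ∈ P)).image
            (fun p => p.1 ∪ p.2) := by
        intro T hT
        have hzT := (Finset.mem_filter.1 hT).2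
        obtain ⟨P, hP, Q, hQ, hd, hT'⟩ := h T
        rw [Finset.mem_image]
        refine ⟨(P, Q), ?_, hT'⟩
        rw [← hT', Finset.mem_union] at hzT
        rw [Finset.mem_union, Finset.mem_product, Finset.mem_product, Finset.mem_filter,
          Finset.mem_filter, Finset.mem_filter, Finset.mem_filter]
        by_cases hzP : z ∈ P
        · exact Or.inl ⟨⟨hP, hzP⟩, ⟨hQ, Finset.disjoint_left.1 hd hzP⟩⟩
        · exact Or.inr ⟨⟨hP, hzP⟩, ⟨hQ, hzT.resolve_left hzP⟩⟩
      have h4 : (Finset.univ.filter fun T : Finset α => z ∈ T).card = N * N := by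
        have h5 : (Finset.univ.filter fun T : Finset α => z ∈ T) = Finset.Icc {z} Finset.univ := by
          ext T
          simp
        rw [h5, Finset.card_Icc_finset (Finset.subset_univ _), Finset.card_univ, hα,
          Finset.card_singleton, Nat.add_sub_cancel, hNN]
      have h6 := (Finset.card_le_card h3).trans (Finset.card_image_le.trans
        (Finset.card_union_le _ _))
      rw [h4, Finset.card_product, Finset.card_product] at h6
      exact h6
    -- `𝒜` and `ℬ` have at least `N` members without `z`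
    obtain ⟨p, hp⟩ : ∃ p, (𝒜.filter fun P => z ∉ P).card = N + p :=
      ⟨(𝒜.filter fun P => z ∉ P).card - N, by omega⟩
    obtain ⟨q, hq⟩ : ∃ q, (ℬ.filter fun P => z ∉ P).card = N + q :=
      ⟨(ℬ.filter fun P => z ∉ P).card - N, by omega⟩
    generalize (𝒜.filter fun P => z ∈ P).card = u at *
    generalize (ℬ.filter fun P => z ∈ P).card = v at *
    rw [hp] at hA hcov
    rw [hq] at hB hcov
    have e1 : (N : ℤ) * N ≤ u * (N + q) + (N + p) * v := by exact_mod_cast hcov
    have e2 : (u : ℤ) + (N + p) + (v + (N + q)) ≤ 3 * N - 1 := by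
      have : u + (N + p) + (v + (N + q)) + 1 ≤ 3 * N := by omega
      have e3 : ((u : ℤ) + (N + p) + (v + (N + q)) + 1) ≤ 3 * N := by exact_mod_cast this
      linarith
    have hNpos : (1 : ℤ) ≤ N := by exact_mod_cast hN1
    have hu : (0 : ℤ) ≤ u := by positivity
    have hv : (0 : ℤ) ≤ v := by positivity
    have hp0 : (0 : ℤ) ≤ p := by positivity
    have hq0 : (0 : ℤ) ≤ q := by positivity
    have hu1 : (u : ℤ) ≤ N - 1 - p - q - v := by linarith
    -- `u (N + q) + v (N + p) ≤ (u + v) N + u q + v p` and `u, v ≤ N - 1 - p - q`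
    nlinarith [mul_nonneg hu hp0, mul_nonneg hv hq0, mul_nonneg hp0 hq0, mul_nonneg hu hv,
      mul_nonneg (by linarith : (0 : ℤ) ≤ N - 1 - p - q - v - u) hp0,
      mul_nonneg (by linarith : (0 : ℤ) ≤ N - 1 - p - q - v - u) hq0,
      mul_nonneg (by linarith : (0 : ℤ) ≤ N - 1 - p - q - v - u) (by linarith : (0 : ℤ) ≤ (N : ℤ)),
      mul_nonneg hp0 hp0, mul_nonneg hq0 hq0]
  -- the two sets of points
  obtain ⟨Y, hY⟩ : ∃ Y : Finset α, Y = Finset.univ.filter fun z =>
    ℬ.card < (ℬ.filter fun Q => z ∈ Q).card + N := ⟨_, rfl⟩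
  have hYm : ∀ z, z ∈ Y ↔ ℬ.card < (ℬ.filter fun Q => z ∈ Q).card + N := by
    intro z
    rw [hY]
    simp
  have hcard : Yᶜ.card + Y.card = 2 * d + 1 := by
    rw [Finset.card_compl_add_card, hα]
  have hsum : (𝒜.card : ℤ) + ℬ.card ≤ 3 * N - 1 := by
    have : 𝒜.card + ℬ.card + 1 ≤ 3 * N := by omega
    have h3 : ((𝒜.card : ℤ) + ℬ.card + 1) ≤ 3 * N := by exact_mod_cast this
    linarith
  have hdis' : (2 : ℤ) * (N * N) + (((𝒜 ×ˢ ℬ).filter fun p => ¬ Disjoint p.1 p.2).card : ℤ) ≤
      𝒜.card * ℬ.card := by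
    have : 2 * (N * N) + ((𝒜 ×ˢ ℬ).filter fun p => ¬ Disjoint p.1 p.2).card ≤
      𝒜.card * ℬ.card := by omega
    exact_mod_cast this
  have haZ : (N : ℤ) < 𝒜.card := by exact_mod_cast ha
  have hbZ : (N : ℤ) < ℬ.card := by exact_mod_cast hb
  have hNpos : (1 : ℤ) ≤ N := by exact_mod_cast hN1
  rcases Nat.lt_or_ge d Yᶜ.card with hlt | hge
  · -- `Y` has at most `d` points
    have hYd : Y.card ≤ d := by omega
    have h1 := meet_count ℬ 𝒜 Y Yᶜ d N hN hYd (fun z hz => Finset.mem_compl.2 hz) ha.le
      (fun z hz' => by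
        rw [Finset.mem_compl, hYm] at hz'
        exact (hz z).resolve_right hz')
    have h2 : ((ℬ ×ˢ 𝒜).filter fun p => ¬ Disjoint p.1 p.2).card =
        ((𝒜 ×ˢ ℬ).filter fun p => ¬ Disjoint p.1 p.2).card := by
      apply Finset.card_bij (fun p _ => (p.2, p.1))
      · rintro ⟨P, Q⟩ hp
        simp only [Finset.mem_filter, Finset.mem_product] at hp ⊢
        exact ⟨⟨hp.1.2, hp.1.1⟩, fun h => hp.2 h.symm⟩
      · rintro ⟨P, Q⟩ _ ⟨P', Q'⟩ _ h
        simp only [Prod.mk.injEq] at h
        obtain ⟨rfl, rfl⟩ := h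
        rfl
      · rintro ⟨P, Q⟩ hp
        simp only [Finset.mem_filter, Finset.mem_product] at hp
        exact ⟨(Q, P), by
          simp only [Finset.mem_filter, Finset.mem_product]
          exact ⟨⟨hp.1.2, hp.1.1⟩, fun h => hp.2 h.symm⟩, rfl⟩
    rw [h2] at h1
    nlinarith
  · have h1 := meet_count 𝒜 ℬ Yᶜ Y d N hN hge (fun z hz => by
      rw [Finset.mem_compl, not_not] at hz
      exact hz) hb.le (fun z hz' => (hYm z).1 hz')
    nlinarith

end disjoint_unions

/-- the upper bound -/
theorem upper (d : ℕ) (A B : Finset (Finset (Fin (2 * d + 1)))) (hAB : CrossSperner A B) :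
    (intersections A B).card + 3 * 2 ^ d ≤ 2 ^ (2 * d + 1) + 1 := by
  classical
  have hNN : (2 : ℕ) ^ (2 * d + 1) = 2 * (2 ^ d * 2 ^ d) := by
    rw [pow_succ, two_mul d, pow_add]
    ring
  have hN1 : 1 ≤ 2 ^ d := Nat.one_le_two_pow
  by_cases hB : B.Nonempty
  swap
  · rw [Finset.not_nonempty_iff_eq_empty] at hB
    have h1 : (intersections A B).card = 0 := by
      rw [hB]
      simp [intersections]
    rw [h1, hNN]
    nlinarith
  -- the sets that are not intersections, by their complements
  have hmem : ∀ T : Finset (Fin (2 * d + 1)), T ∈ intersections A B ↔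
      ∃ S ∈ A, ∃ R ∈ B, S ∩ R = T := by
    intro T
    simp only [intersections, Finset.mem_image, Finset.mem_product, Prod.exists]
    constructor
    · rintro ⟨S, R, ⟨hS, hR⟩, hT⟩
      exact ⟨S, hS, R, hR, hT⟩
    · rintro ⟨S, hS, R, hR, hT⟩
      exact ⟨S, R, ⟨hS, hR⟩, hT⟩
  let F : Finset (Finset (Fin (2 * d + 1))) :=
    Finset.univ.filter fun T => Tᶜ ∉ intersections A B
  have hF : ∀ T, T ∈ F ↔ Tᶜ ∉ intersections A B := by
    intro T
    simp [F]
  let A' : Finset (Finset (Fin (2 * d + 1))) := A.image fun S => Sᶜ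
  have hA' : ∀ T, T ∈ A' ↔ Tᶜ ∈ A := by
    intro T
    simp only [A', Finset.mem_image]
    constructor
    · rintro ⟨S, hS, rfl⟩
      rwa [compl_compl]
    · intro h
      exact ⟨Tᶜ, h, compl_compl T⟩
  have hsub : A' ⊆ F := by
    intro T hT
    rw [hA'] at hT
    rw [hF, hmem]
    rintro ⟨S, -, R, hR, hSR⟩
    apply (hAB _ hT R hR).1
    rw [← hSR]
    exact Finset.inter_subset_right
  have hFcard : F.card + (intersections A B).card = 2 ^ (2 * d + 1) := by
    have h1 : (Finset.univ.filter fun T : Finset (Fin (2 * d + 1)) =>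
        Tᶜ ∈ intersections A B).card = (intersections A B).card := by
      apply Finset.card_bij (fun T _ => Tᶜ)
      · intro T hT
        exact (Finset.mem_filter.1 hT).2
      · intro T _ T' _ h
        exact compl_injective h
      · intro T hT
        refine ⟨Tᶜ, ?_, compl_compl T⟩
        rw [Finset.mem_filter]
        refine ⟨Finset.mem_univ _, ?_⟩
        rwa [compl_compl]
    have h2 : (Finset.univ.filter fun T : Finset (Fin (2 * d + 1)) =>
        Tᶜ ∈ intersections A B).card + F.card = 2 ^ (2 * d + 1) := by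
      have h3 := Finset.card_filter_add_card_filter_not
        (s := (Finset.univ : Finset (Finset (Fin (2 * d + 1)))))
        (fun T => Tᶜ ∈ intersections A B)
      rw [Finset.card_univ, Fintype.card_finset, Fintype.card_fin] at h3
      exact h3
    omega
  have hmain := three_le d (Fintype.card_fin _) (insert ∅ A') (F \ A') (by
    intro T
    by_cases hT : T ∈ F
    · by_cases hTA : T ∈ A'
      · refine ⟨T, Finset.mem_insert_of_mem hTA, ∅, ?_, Finset.disjoint_empty_right T,
          Finset.union_empty T⟩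
        rw [Finset.mem_sdiff, hF, hA', hmem, Finset.compl_empty]
        constructor
        · rintro ⟨S, hS, R, hR, hSR⟩
          apply (hAB S hS R hR).2
          have h1 : (Finset.univ : Finset (Fin (2 * d + 1))) ⊆ S := by
            rw [← hSR]
            exact Finset.inter_subset_left
          exact (Finset.subset_univ R).trans h1
        · intro hu
          obtain ⟨R, hR⟩ := hB
          exact (hAB _ hu R hR).2 (Finset.subset_univ R)
      · exact ⟨∅, Finset.mem_insert_self _ _, T, Finset.mem_sdiff.2 ⟨hT, hTA⟩,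
          Finset.disjoint_empty_left T, Finset.empty_union T⟩
    · rw [hF, not_not, hmem] at hT
      obtain ⟨S, hS, R, hR, hSR⟩ := hT
      have hRsub : R ⊆ (Rᶜ \ Sᶜ)ᶜ := by
        intro x hx
        rw [Finset.mem_compl, Finset.mem_sdiff, Finset.mem_compl, Finset.mem_compl]
        tauto
      refine ⟨Sᶜ, Finset.mem_insert_of_mem ((hA' _).2 (by rwa [compl_compl])), Rᶜ \ Sᶜ, ?_,
        Finset.disjoint_sdiff, ?_⟩
      · rw [Finset.mem_sdiff, hF, hA', hmem]
        constructor
        · rintro ⟨S', hS', R', -, hSR'⟩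
          apply (hAB S' hS' R hR).2
          refine hRsub.trans ?_
          rw [← hSR']
          exact Finset.inter_subset_left
        · intro hu
          exact (hAB _ hu R hR).2 hRsub
      · rw [Finset.union_sdiff_self_eq_union, ← Finset.compl_inter, hSR, compl_compl])
  have h1 : (insert ∅ A').card ≤ A'.card + 1 := Finset.card_insert_le _ _
  have h2 : (F \ A').card + A'.card = F.card := Finset.card_sdiff_add_card_eq_card hsub
  omega

/-- the lower bound: the known construction -/
theorem lower (d : ℕ) : ∃ A B : Finset (Finset (Fin (2 * d + 1))), CrossSperner A B ∧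
    2 ^ (2 * d + 1) + 1 ≤ (intersections A B).card + 3 * 2 ^ d := by
  classical
  let X : Finset (Fin (2 * d + 1)) := Finset.univ.filter fun i => i.1 < d
  have hX : ∀ i, i ∈ X ↔ i.1 < d := by
    intro i
    simp [X]
  have hXc : X.card = d := by
    have h1 : X = (Finset.univ : Finset (Fin d)).map
        (Fin.castLEEmb (by omega : d ≤ 2 * d + 1)) := by
      ext i
      rw [hX, Finset.mem_map]
      constructor
      · intro h
        exact ⟨⟨i.1, h⟩, Finset.mem_univ _, Fin.ext rfl⟩
      · rintro ⟨j, -, rfl⟩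
        exact j.2
    rw [h1, Finset.card_map, Finset.card_univ, Fintype.card_fin]
  have hXcc : Xᶜ.card = d + 1 := by
    have h1 := Finset.card_add_card_compl X
    rw [hXc, Fintype.card_fin] at h1
    omega
  let A : Finset (Finset (Fin (2 * d + 1))) := Finset.univ.filter fun S => Xᶜ ⊆ S ∧ ¬ X ⊆ S
  let B : Finset (Finset (Fin (2 * d + 1))) := Finset.univ.filter fun S => X ⊆ S ∧ ¬ Xᶜ ⊆ S
  refine ⟨A, B, ?_, ?_⟩
  · intro S hS T hT
    simp only [A, B, Finset.mem_filter] at hS hT
    exact ⟨fun h => hT.2.2 (hS.2.1.trans h), fun h => hS.2.2 (hT.2.1.trans h)⟩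
  · have h1 : (Finset.univ : Finset (Finset (Fin (2 * d + 1)))) ⊆
        intersections A B ∪ ((Finset.Icc X Finset.univ) ∪
          (Finset.Icc Xᶜ Finset.univ).erase Finset.univ) := by
      intro T _
      rw [Finset.mem_union, Finset.mem_union, Finset.mem_erase, Finset.mem_Icc, Finset.mem_Icc]
      by_cases hTX : X ⊆ T
      · exact Or.inr (Or.inl ⟨hTX, Finset.subset_univ T⟩)
      by_cases hTY : Xᶜ ⊆ T
      · refine Or.inr (Or.inr ⟨?_, hTY, Finset.subset_univ T⟩)
        rintro rfl
        exact hTX (Finset.subset_univ X)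
      refine Or.inl ?_
      simp only [intersections, Finset.mem_image, Finset.mem_product, Prod.exists]
      refine ⟨T ∪ Xᶜ, T ∪ X, ⟨?_, ?_⟩, ?_⟩
      · simp only [A, Finset.mem_filter]
        refine ⟨Finset.mem_univ _, Finset.subset_union_right, fun h => hTX ?_⟩
        intro x hx
        have h2 := h hx
        rw [Finset.mem_union, Finset.mem_compl] at h2
        exact h2.resolve_right (fun h3 => h3 hx)
      · simp only [B, Finset.mem_filter]
        refine ⟨Finset.mem_univ _, Finset.subset_union_right, fun h => hTY ?_⟩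
        intro x hx
        have h2 := h hx
        rw [Finset.mem_union] at h2
        exact h2.resolve_right (Finset.mem_compl.1 hx)
      · ext x
        simp only [Finset.mem_inter, Finset.mem_union, Finset.mem_compl]
        tauto
    have h2 := (Finset.card_le_card h1).trans ((Finset.card_union_le _ _).trans
      (Nat.add_le_add_left (Finset.card_union_le _ _) _))
    have h3 : (Finset.univ : Finset (Fin (2 * d + 1))) ∈ Finset.Icc Xᶜ Finset.univ :=
      Finset.mem_Icc.2 ⟨Finset.subset_univ _, le_rfl⟩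
    rw [Finset.card_erase_of_mem h3, Finset.card_Icc_finset (Finset.subset_univ _),
      Finset.card_Icc_finset (Finset.subset_univ _), hXc, hXcc, Finset.card_univ,
      Fintype.card_finset, Finset.card_univ, Fintype.card_fin] at h2
    have h4 : 2 * d + 1 - d = d + 1 := by omega
    have h5 : 2 * d + 1 - (d + 1) = d := by omega
    rw [h4, h5, pow_succ 2 d] at h2
    have hN1 : 1 ≤ 2 ^ d := Nat.one_le_two_pow
    omega

/-- For every odd `n = 2d + 1` we have `m(n) = 2 ^ n - 2 ^ (d + 1) - 2 ^ d + 1`. -/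
theorem result (d : ℕ) :
    (m (2 * d + 1) : ℤ) = 2 ^ (2 * d + 1) - 2 ^ (d + 1) - 2 ^ d + 1 := by
  have hpow : (2 : ℕ) ^ (d + 1) = 2 * 2 ^ d := by
    rw [pow_succ]
    ring
  have hN1 : 1 ≤ 2 ^ d := Nat.one_le_two_pow
  have hgr : IsGreatest {k : ℕ | ∃ A B : Finset (Finset (Fin (2 * d + 1))),
      CrossSperner A B ∧ k = (intersections A B).card} (2 ^ (2 * d + 1) + 1 - 3 * 2 ^ d) := by
    constructor
    · obtain ⟨A, B, hAB, h⟩ := lower d
      refine ⟨A, B, hAB, ?_⟩
      have h2 := upper d A B hAB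
      omega
    · rintro k ⟨A, B, hAB, rfl⟩
      have h2 := upper d A B hAB
      omega
  have hle : 3 * 2 ^ d ≤ 2 ^ (2 * d + 1) + 1 := by
    obtain ⟨A, B, hAB, h⟩ := lower d
    have h2 := upper d A B hAB
    omega
  rw [m, hgr.csSup_eq, Nat.cast_sub hle]
  push_cast
  rw [pow_succ (2 : ℤ) d]
  ring

end Pool.Agent.Results.MP_841146_co.OddGroundSets
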